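import Mathlib.LinearAlgebra.Matrix.ToLin
import Mathlib.Algebra.DirectSum.Module
import Mathlib.Algebra.DirectSum.Internal
import Mathlib.Data.Matrix.Basis

/-!
# Full matrix algebras have non-semigroup gradings

For every nontrivial commutative ring `K` (in particular every field) and every `n ≥ 3` the full
matrix algebra `M_n(K)` has a grading (over a set with a partial binary operation, with all
components nonzero) that is not a semigroup grading.

The components are spanned by matrix units.  All of them are spanned by one matrix unit, except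
`⟨e₂₁, e₃₃⟩` and `⟨e₂₂, e₃₁⟩`.
-/

namespace Pool.Agent.Results.MP_5a34df_al.NonSemigroup

universe u v w x

/-- A grading of the algebra `A` over the set `Γ`: a decomposition `A = ⨁ A_g` into subspaces
and a partial binary operation `op` on `Γ` (`op g h = none` means that `g * h` is not defined), such
that `g * h` is defined exactly when `A_g A_h ≠ 0`, and then `A_g A_h ⊆ A_{g * h}`. -/
structure SetGrading (K : Type u) (A : Type v) (Γ : Type w) [CommRing K] [Ring A] [Algebra K A]
    [DecidableEq Γ] where
  /-- the components -/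
  comp : Γ → Submodule K A
  /-- `A` is the direct sum of the components -/
  internal : DirectSum.IsInternal comp
  /-- the partial operation -/
  op : Γ → Γ → Option Γ
  /-- `g * h` is defined exactly when `A_g A_h ≠ 0` -/
  defined_iff : ∀ g h, (∃ k, op g h = some k) ↔ ∃ x ∈ comp g, ∃ y ∈ comp h, x * y ≠ 0
  /-- `A_g A_h ⊆ A_{g * h}` -/
  mul_mem : ∀ g h k, op g h = some k → ∀ x ∈ comp g, ∀ y ∈ comp h, x * y ∈ comp k

/-- The grading is a semigroup grading: `(Γ, *)` embeds into a semigroup (in the universe
`Type x`, which is arbitrary). -/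
def SetGrading.IsSemigroupGrading {K : Type u} {A : Type v} {Γ : Type w} [CommRing K] [Ring A]
    [Algebra K A] [DecidableEq Γ] (G : SetGrading K A Γ) : Prop :=
  ∃ (S : Type x) (_ : Semigroup S) (i : Γ → S), Function.Injective i ∧
    ∀ g h k, G.op g h = some k → i k = i g * i h

section construction

variable {K : Type u} [CommRing K] {n : ℕ} {Γ : Type w} [DecidableEq Γ]

/-- the span of the matrix units in the class `g` -/
def cls (K : Type u) [CommRing K] (c : Fin n → Fin n → Γ) (g : Γ) :
    Submodule K (Matrix (Fin n) (Fin n) K) where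
  carrier := {M | ∀ i j, M i j ≠ 0 → c i j = g}
  add_mem' := by
    intro M N hM hN i j h
    by_contra hc
    have h1 : M i j = 0 := by by_contra h1; exact hc (hM i j h1)
    have h2 : N i j = 0 := by by_contra h2; exact hc (hN i j h2)
    exact h (by simp [h1, h2])
  zero_mem' := by
    intro i j h
    exact absurd rfl h
  smul_mem' := by
    intro a M hM i j h
    by_contra hc
    have h1 : M i j = 0 := by by_contra h1; exact hc (hM i j h1)
    exact h (by simp [h1])

theorem mem_cls {c : Fin n → Fin n → Γ} {g : Γ} {M : Matrix (Fin n) (Fin n) K} :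
    M ∈ cls K c g ↔ ∀ i j, M i j ≠ 0 → c i j = g := Iff.rfl

theorem single_mem (c : Fin n → Fin n → Γ) (i j : Fin n) (a : K) :
    Matrix.single i j a ∈ cls K c (c i j) := by
  intro p q h
  by_cases hpq : i = p ∧ j = q
  · rw [hpq.1, hpq.2]
  · exact absurd (Matrix.single_apply_of_ne _ _ _ _ _ hpq) h

theorem cls_internal (c : Fin n → Fin n → Γ) : DirectSum.IsInternal (cls K c) := by
  rw [DirectSum.isInternal_submodule_iff_iSupIndep_and_iSup_eq_top]
  constructor
  · rw [iSupIndep_def]
    intro g
    rw [Submodule.disjoint_def]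
    intro M hM hN
    have hle : (⨆ (h : Γ) (_ : h ≠ g), cls K c h) ≤
        { carrier := {M | ∀ i j, M i j ≠ 0 → c i j ≠ g}
          add_mem' := by
            intro M N hM hN i j h hc
            have h1 : M i j = 0 := by by_contra h1; exact (hM i j h1) hc
            have h2 : N i j = 0 := by by_contra h2; exact (hN i j h2) hc
            exact h (by simp [h1, h2])
          zero_mem' := by
            intro i j h
            exact absurd rfl h
          smul_mem' := by
            intro a M hM i j h hc
            have h1 : M i j = 0 := by by_contra h1; exact (hM i j h1) hc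
            exact h (by simp [h1]) } := by
      refine iSup₂_le ?_
      intro h hh M hM i j hij
      rw [hM i j hij]
      exact hh
    ext i j
    by_contra hc
    exact hle hN i j hc (hM i j hc)
  · rw [eq_top_iff]
    intro M _
    rw [Matrix.matrix_eq_sum_single M]
    refine Submodule.sum_mem _ fun i _ => Submodule.sum_mem _ fun j _ => ?_
    exact Submodule.mem_iSup_of_mem (c i j) (single_mem c i j _)

open Classical in
/-- A class function on the matrix units such that the classes of composable units determine the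
class of the product gives a grading. -/
noncomputable def grad [Nontrivial K] (c : Fin n → Fin n → Γ)
    (hc : ∀ i j k i' j' k', c i j = c i' j' → c j k = c j' k' → c i k = c i' k') :
    SetGrading K (Matrix (Fin n) (Fin n) K) Γ where
  comp := cls K c
  internal := cls_internal c
  op g h := if hx : ∃ i j k, c i j = g ∧ c j k = h then
    some (c hx.choose hx.choose_spec.choose_spec.choose) else none
  defined_iff := by
    intro g h
    constructor
    · rintro ⟨k, hk⟩
      by_cases hx : ∃ i j k, c i j = g ∧ c j k = h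
      · obtain ⟨i, j, k, rfl, rfl⟩ := hx
        refine ⟨Matrix.single i j 1, single_mem c i j 1, Matrix.single j k 1,
          single_mem c j k 1, ?_⟩
        rw [Matrix.single_mul_single_same]
        intro h0
        have := congrFun (congrFun h0 i) k
        simp at this
      · rw [dif_neg hx] at hk
        exact absurd hk (by simp)
    · rintro ⟨M, hM, N, hN, hMN⟩
      have hx : ∃ i j k, c i j = g ∧ c j k = h := by
        by_contra hx
        apply hMN
        ext i k
        rw [Matrix.mul_apply]
        refine Finset.sum_eq_zero fun j _ => ?_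
        by_contra hne
        exact hx ⟨i, j, k, hM i j (left_ne_zero_of_mul hne), hN j k (right_ne_zero_of_mul hne)⟩
      rw [dif_pos hx]
      exact ⟨_, rfl⟩
  mul_mem := by
    intro g h r hr M hM N hN i k hik
    by_cases hx : ∃ i j k, c i j = g ∧ c j k = h
    · rw [dif_pos hx] at hr
      have hspec := hx.choose_spec.choose_spec.choose_spec
      rw [Matrix.mul_apply] at hik
      obtain ⟨j, -, hj⟩ := Finset.exists_ne_zero_of_sum_ne_zero hik
      have h1 := hM i j (left_ne_zero_of_mul hj)
      have h2 := hN j k (right_ne_zero_of_mul hj)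
      have h3 := hc i j k _ _ _ (h1.trans hspec.1.symm) (h2.trans hspec.2.symm)
      rw [h3]
      exact Option.some.inj hr
    · rw [dif_neg hx] at hr
      exact absurd hr (by simp)

theorem grad_op [Nontrivial K] (c : Fin n → Fin n → Γ)
    (hc : ∀ i j k i' j' k', c i j = c i' j' → c j k = c j' k' → c i k = c i' k') (i j k : Fin n) :
    (grad (K := K) c hc).op (c i j) (c j k) = some (c i k) := by
  have hx : ∃ i' j' k', c i' j' = c i j ∧ c j' k' = c j k := ⟨i, j, k, rfl, rfl⟩
  change (if hx : ∃ i' j' k', c i' j' = c i j ∧ c j' k' = c j k then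
    some (c hx.choose hx.choose_spec.choose_spec.choose) else none) = _
  rw [dif_pos hx]
  have hspec := hx.choose_spec.choose_spec.choose_spec
  exact congrArg some (hc _ _ _ _ _ _ hspec.1 hspec.2)

end construction

/-- The identification of matrix units on pairs of numbers: `(2,2) ↦ (1,0)` and `(2,0) ↦ (1,1)`
(indices starting from `0`). -/
def red (p : ℕ × ℕ) : ℕ × ℕ :=
  if p = (2, 2) then (1, 0) else if p = (2, 0) then (1, 1) else p

theorem red_eq_iff (i j i' j' : ℕ) : red (i, j) = red (i', j') ↔
    ((i = i' ∧ j = j') ∨ (i = 1 ∧ j = 0 ∧ i' = 2 ∧ j' = 2) ∨ (i = 2 ∧ j = 2 ∧ i' = 1 ∧ j' = 0) ∨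
      (i = 1 ∧ j = 1 ∧ i' = 2 ∧ j' = 0) ∨ (i = 2 ∧ j = 0 ∧ i' = 1 ∧ j' = 1)) := by
  have e : ∀ a b : ℕ, red (a, b) = if a = 2 ∧ b = 2 then (1, 0) else
      if a = 2 ∧ b = 0 then (1, 1) else (a, b) := by
    intro a b
    simp only [red, Prod.mk.injEq]
  rw [e, e]
  by_cases h1 : i = 2 ∧ j = 2
  · rw [if_pos h1]
    by_cases h3 : i' = 2 ∧ j' = 2
    · rw [if_pos h3]
      constructor
      · intro _; left; omega
      · intro _; rfl
    · rw [if_neg h3]
      by_cases h4 : i' = 2 ∧ j' = 0
      · rw [if_pos h4, Prod.mk.injEq]; omega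
      · rw [if_neg h4, Prod.mk.injEq]; omega
  · rw [if_neg h1]
    by_cases h2 : i = 2 ∧ j = 0
    · rw [if_pos h2]
      by_cases h3 : i' = 2 ∧ j' = 2
      · rw [if_pos h3, Prod.mk.injEq]; omega
      · rw [if_neg h3]
        by_cases h4 : i' = 2 ∧ j' = 0
        · rw [if_pos h4, Prod.mk.injEq]; omega
        · rw [if_neg h4, Prod.mk.injEq]; omega
    · rw [if_neg h2]
      by_cases h3 : i' = 2 ∧ j' = 2
      · rw [if_pos h3, Prod.mk.injEq]; omega
      · rw [if_neg h3]
        by_cases h4 : i' = 2 ∧ j' = 0
        · rw [if_pos h4, Prod.mk.injEq]; omega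
        · rw [if_neg h4, Prod.mk.injEq]; omega

/-- the key property of the identification -/
theorem red_key (i j k i' j' k' : ℕ) (h1 : red (i, j) = red (i', j'))
    (h2 : red (j, k) = red (j', k')) : red (i, k) = red (i', k') := by
  rw [red_eq_iff] at *
  rcases h1 with h1 | h1 | h1 | h1 | h1 <;> rcases h2 with h2 | h2 | h2 | h2 | h2 <;>
    first
    | (exfalso; omega)
    | (left; omega)

/-- **Full matrix algebras have non-semigroup gradings.** -/
theorem result (K : Type u) [CommRing K] [Nontrivial K] (n : ℕ) (hn : 3 ≤ n) :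
    ∃ (Γ : Type) (_ : DecidableEq Γ) (G : SetGrading K (Matrix (Fin n) (Fin n) K) Γ),
      (∀ g, G.comp g ≠ ⊥) ∧ ¬ SetGrading.IsSemigroupGrading.{u, u, 0, x} G := by
  classical
  let c0 : Fin n → Fin n → ℕ × ℕ := fun i j => red (i.1, j.1)
  let Γ : Type := {p : ℕ × ℕ // ∃ i j, c0 i j = p}
  let c : Fin n → Fin n → Γ := fun i j => ⟨c0 i j, i, j, rfl⟩
  have hc : ∀ i j k i' j' k', c i j = c i' j' → c j k = c j' k' → c i k = c i' k' := by
    intro i j k i' j' k' h1 h2
    apply Subtype.ext
    exact red_key _ _ _ _ _ _ (congrArg Subtype.val h1) (congrArg Subtype.val h2)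
  refine ⟨Γ, inferInstance, grad c hc, ?_, ?_⟩
  · rintro ⟨p, i, j, rfl⟩ h0
    have h1 : Matrix.single i j (1 : K) ∈ cls K c (c i j) := single_mem c i j 1
    have h2 : Matrix.single i j (1 : K) ∈ (⊥ : Submodule K (Matrix (Fin n) (Fin n) K)) := by
      rw [← h0]; exact h1
    rw [Submodule.mem_bot] at h2
    have := congrFun (congrFun h2 i) j
    simp at this
  · rintro ⟨S, _, f, hf, hmul⟩
    let z : Fin n := ⟨0, by omega⟩
    let o : Fin n := ⟨1, by omega⟩
    let t : Fin n := ⟨2, by omega⟩
    have hop : ∀ i j k, f (c i k) = f (c i j) * f (c j k) := fun i j k =>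
      hmul _ _ _ (grad_op c hc i j k)
    -- the two identifications
    have e1 : c o z = c t t := Subtype.ext (by simp [c, c0, o, z, t, red])
    have e2 : c o o = c t z := Subtype.ext (by simp [c, c0, o, z, t, red])
    -- `e₂₃ e₃₁ = e₂₁`, `e₃₃ e₃₃ = e₃₃`, `e₂₂ e₂₁ = e₂₁`, `e₂₃ e₃₃ = e₂₃`
    have h1 : f (c o z) = f (c o t) * f (c t z) := hop o t z
    have h2 : f (c t t) = f (c t t) * f (c t t) := hop t t t
    have h3 : f (c o z) = f (c o o) * f (c o z) := hop o o z
    have h4 : f (c o t) = f (c o t) * f (c t t) := hop o t t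
    have h5 : f (c o z) = f (c o t) := by
      calc f (c o z) = f (c o z) * f (c o z) := by rw [e1]; exact h2
        _ = (f (c o t) * f (c t z)) * f (c o z) := by rw [← h1]
        _ = f (c o t) * (f (c o o) * f (c o z)) := by rw [mul_assoc, e2]
        _ = f (c o t) * f (c t t) := by rw [← h3, e1]
        _ = f (c o t) := h4.symm
    have h6 : c0 o z = c0 o t := congrArg Subtype.val (hf h5)
    simp [c0, o, z, t, red] at h6

end Pool.Agent.Results.MP_5a34df_al.NonSemigroup
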